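import Pool.Agent.Helper23.XT.Defs

namespace Pool.Agent.Helper23.XT

open MvPolynomial

variable {K Γ Γ' : Type*} [Field K] [LinearOrderedCommGroupWithZero Γ]
  [LinearOrderedCommGroupWithZero Γ'] {v : Valuation K Γ} {w : Valuation K Γ'}

theorem Extremal.fintype (hv : Extremal v) {ι : Type*} [Fintype ι] (f : MvPolynomial ι K) :
    ∃ a : ι → K, (∀ i, v (a i) ≤ 1) ∧
      ∀ b : ι → K, (∀ i, v (b i) ≤ 1) → v (eval a f) ≤ v (eval b f) := by
  classical
  obtain ⟨a, ha, hmin⟩ := hv (Fintype.card ι) (rename (Fintype.equivFin ι) f)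
  refine ⟨a ∘ Fintype.equivFin ι, fun i => ha _, fun b hb => ?_⟩
  have := hmin (b ∘ (Fintype.equivFin ι).symm) (fun i => hb _)
  rw [eval_rename, eval_rename] at this
  have h2 : (b ∘ (Fintype.equivFin ι).symm) ∘ (Fintype.equivFin ι) = b := by
    funext i; simp
  rwa [h2] at this

theorem Extremal.poly (hv : Extremal v) (g : Polynomial K) :
    ∃ a, v a ≤ 1 ∧ ∀ b, v b ≤ 1 → v (g.eval a) ≤ v (g.eval b) := by
  obtain ⟨a, ha, hmin⟩ := hv.fintype (ι := Unit)
    (g.eval₂ (C : K →+* MvPolynomial Unit K) (X ()))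
  have key : ∀ b : Unit → K, eval b (g.eval₂ (C : K →+* MvPolynomial Unit K) (X ())) =
      g.eval (b ()) := by
    intro b
    have h1 : (eval b).comp (C : K →+* MvPolynomial Unit K) = RingHom.id K := by
      ext; simp
    rw [Polynomial.hom_eval₂, h1, eval_X, Polynomial.eval₂_id]
  refine ⟨a (), ha (), fun b hb => ?_⟩
  have := hmin (fun _ => b) (fun _ => hb)
  rwa [key, key] at this

/-- comparison of a valuation with a coarsening -/
theorem w_le_of_v_le (hvw : ∀ x, v x ≤ 1 → w x ≤ 1) {x y : K} (h : v x ≤ v y) : w x ≤ w y := by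
  rcases eq_or_ne y 0 with rfl | hy
  · simp only [map_zero, le_zero_iff, Valuation.zero_iff] at h ⊢
    exact h
  · have h1 : v (x / y) ≤ 1 := by
      rw [map_div₀]
      exact div_le_one_of_le₀ h zero_le
    have h2 := hvw _ h1
    rw [map_div₀] at h2
    exact (div_le_one₀ (zero_lt_iff.2 ((Valuation.ne_zero_iff w).2 hy))).1 h2

theorem v_lt_of_w_lt (hvw : ∀ x, v x ≤ 1 → w x ≤ 1) {x y : K} (h : w x < w y) : v x < v y := by
  by_contra h1
  exact absurd (w_le_of_v_le hvw (not_lt.1 h1)) (not_le.2 h)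

theorem v_lt_one_of_w_lt_one (hvw : ∀ x, v x ≤ 1 → w x ≤ 1) {x : K} (h : w x < 1) : v x < 1 := by
  have := v_lt_of_w_lt hvw (x := x) (y := 1) (by simpa using h)
  simpa using this

end Pool.Agent.Helper23.XT
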