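import Pool.Agent.Helper23.XT.Basic

namespace Pool.Agent.Helper23.XT

open MvPolynomial

variable {K Γ Γ' : Type*} [Field K] [LinearOrderedCommGroupWithZero Γ]
  [LinearOrderedCommGroupWithZero Γ'] {v : Valuation K Γ} {w : Valuation K Γ'}

/-- the polynomial `f(mX)` -/
theorem eval_scale {n : ℕ} (f : MvPolynomial (Fin n) K) (m : K) (a : Fin n → K) :
    eval a (bind₁ (fun i => C m * X i) f) = eval (fun i => m * a i) f := by
  have h : (eval a).comp (bind₁ (fun i => C m * X i) :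
      MvPolynomial (Fin n) K →ₐ[K] MvPolynomial (Fin n) K).toRingHom =
      eval (fun i => m * a i) := by
    apply MvPolynomial.ringHom_ext
    · intro r
      simp
    · intro i
      simp
  exact congrArg (fun φ : MvPolynomial (Fin n) K →+* K => φ f) h

/-- extremality on balls -/
theorem Extremal.ball (hv : Extremal v) {n : ℕ} (f : MvPolynomial (Fin n) K) {m : K}
    (hm : m ≠ 0) : ∃ a : Fin n → K, (∀ i, v (a i) ≤ v m) ∧
      ∀ b : Fin n → K, (∀ i, v (b i) ≤ v m) → v (eval a f) ≤ v (eval b f) := by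
  have hvm : v m ≠ 0 := (Valuation.ne_zero_iff v).2 hm
  obtain ⟨a, ha, hmin⟩ := hv n (bind₁ (fun i => C m * X i) f)
  refine ⟨fun i => m * a i, fun i => ?_, fun b hb => ?_⟩
  · rw [map_mul]
    exact mul_le_of_le_one_right' (ha i)
  · have h1 := hmin (fun i => m⁻¹ * b i) (fun i => by
      rw [map_mul, map_inv₀]
      exact inv_mul_le_one_of_le₀ (hb i) zero_le)
    rw [eval_scale, eval_scale] at h1
    have h2 : (fun i => m * (m⁻¹ * b i)) = b := by
      funext i
      rw [mul_inv_cancel_left₀ hm]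
    rwa [h2] at h1

/-- If `w(f)` has no least value on `O_w^n`, then on every ball of radius in the convex subgroup
the values stay above some value. -/
theorem bounded_on_balls (hv : Extremal v) (hvw : ∀ x, v x ≤ 1 → w x ≤ 1) {n : ℕ}
    (f : MvPolynomial (Fin n) K)
    (hno : ∀ a : Fin n → K, (∀ i, w (a i) ≤ 1) →
      ∃ b : Fin n → K, (∀ i, w (b i) ≤ 1) ∧ w (eval b f) < w (eval a f))
    (m : K) (hm : w m = 1) :
    ∃ b : Fin n → K, (∀ i, w (b i) ≤ 1) ∧
      ∀ a : Fin n → K, (∀ i, v (a i) ≤ v m) → w (eval b f) < w (eval a f) := by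
  have hm0 : m ≠ 0 := by
    rintro rfl
    simp at hm
  obtain ⟨a, ha, hmin⟩ := hv.ball f hm0
  obtain ⟨b, hb, hlt⟩ := hno a (fun i => by
    have := w_le_of_v_le hvw (ha i)
    rwa [hm] at this)
  exact ⟨b, hb, fun c hc => hlt.trans_le (w_le_of_v_le hvw (hmin c hc))⟩

/-- If every set of values has a countable coinitial subset, and every countable subset of the
`w`-units is bounded by a `w`-unit, then `w` is extremal. -/
theorem extremal_of_cofinality (hv : Extremal v) (hvw : ∀ x, v x ≤ 1 → w x ≤ 1)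
    (h1 : ∀ S : Set Γ', S.Nonempty → ∃ T ⊆ S, T.Countable ∧ ∀ s ∈ S, ∃ t ∈ T, t ≤ s)
    (h2 : ∀ D : Set K, D.Countable → (∀ x ∈ D, w x = 1) → ∃ m, w m = 1 ∧ ∀ x ∈ D, v x ≤ v m) :
    Extremal w := by
  classical
  intro n f
  by_contra hno
  push Not at hno
  have hno' : ∀ a : Fin n → K, (∀ i, w (a i) ≤ 1) →
      ∃ b : Fin n → K, (∀ i, w (b i) ≤ 1) ∧ w (eval b f) < w (eval a f) := hno
  obtain ⟨T, hTS, hTc, hT⟩ := h1 (Values w f) ⟨_, fun _ => 0, fun i => by simp, rfl⟩
  have hTS' : ∀ t ∈ T, ∃ a : Fin n → K, (∀ i, w (a i) ≤ 1) ∧ w (eval a f) = t :=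
    fun t ht => hTS ht
  choose! A hA using hTS'
  -- the coordinates that are units
  obtain ⟨m, hm, hmb⟩ := h2 (⋃ t ∈ T, {x | w x = 1 ∧ ∃ i, A t i = x})
    (by
      refine Set.Countable.biUnion hTc fun t _ => ?_
      refine Set.Countable.mono (s₂ := Set.range (A t)) ?_ (Set.countable_range _)
      rintro x ⟨-, i, rfl⟩
      exact ⟨i, rfl⟩)
    (by
      intro x hx
      simp only [Set.mem_iUnion] at hx
      obtain ⟨t, ht, hx⟩ := hx
      exact hx.1)
  obtain ⟨b, hb, hlt⟩ := bounded_on_balls hv hvw f hno' m hm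
  obtain ⟨t, ht, htb⟩ := hT _ ⟨b, hb, rfl⟩
  have h3 := hlt (A t) (fun i => by
    rcases ((hA t ht).1 i).lt_or_eq with h | h
    · refine (v_lt_of_w_lt hvw ?_).le
      rwa [hm]
    · refine hmb _ ?_
      simp only [Set.mem_iUnion]
      exact ⟨t, ht, h, i, rfl⟩)
  rw [(hA t ht).2] at h3
  exact absurd htb (not_le.2 h3)

end Pool.Agent.Helper23.XT
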