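import Pool.Agent.Helper23.XT.Cof

/-!
# The cofinality of the set of values (MP_c5a4e2_lc)
-/

namespace Pool.Agent.Helper23.XT

open MvPolynomial Cardinal

universe u v₁ v₂

variable {K : Type u} {Γ : Type v₁} {Γ' : Type v₂} [Field K] [LinearOrderedCommGroupWithZero Γ]
  [LinearOrderedCommGroupWithZero Γ'] {v : Valuation K Γ} {w : Valuation K Γ'}

/-- every point of `O_w^n` lies in a `v`-ball whose radius is a `w`-unit -/
theorem exists_unit_bound (hvw : ∀ x, v x ≤ 1 → w x ≤ 1) {n : ℕ} (b : Fin n → K)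
    (hb : ∀ i, w (b i) ≤ 1) : ∃ m : K, w m = 1 ∧ ∀ i, v (b i) ≤ v m := by
  by_cases h : ∀ i, v (b i) ≤ 1
  · exact ⟨1, by simp, fun i => by simpa using h i⟩
  · push Not at h
    obtain ⟨i₀, hi₀⟩ := h
    have : Nonempty (Fin n) := ⟨i₀⟩
    obtain ⟨j, hj⟩ := Finite.exists_max (fun i => v (b i))
    have h1 : 1 < v (b j) := hi₀.trans_le (hj i₀)
    have h2 : w 1 ≤ w (b j) := w_le_of_v_le hvw (by simpa using h1.le)
    rw [map_one] at h2
    exact ⟨b j, le_antisymm (hb j) h2, hj⟩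

/-- The set of values of a polynomial without least value on `O_w^n` has the coinitiality of the
convex subgroup of `Γ` given by the `w`-units. -/
theorem cof_values (hv : Extremal v) (hvw : ∀ x, v x ≤ 1 → w x ≤ 1) {n : ℕ}
    (f : MvPolynomial (Fin n) K)
    (hno : ∀ a : Fin n → K, (∀ i, w (a i) ≤ 1) →
      ∃ b : Fin n → K, (∀ i, w (b i) ≤ 1) ∧ w (eval b f) < w (eval a f)) :
    Cardinal.lift.{v₁} (Order.cof (Values w f)ᵒᵈ) =
      Cardinal.lift.{v₂} (Order.cof {δ : Γ // ∃ x : K, w x = 1 ∧ v x = δ}) := by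
  classical
  apply le_antisymm
  · rw [Order.le_lift_cof_iff]
    intro s hs
    have hs' : ∀ δ : {δ : Γ // ∃ x : K, w x = 1 ∧ v x = δ},
        ∃ a : Fin n → K, (∀ i, v (a i) ≤ δ.1) ∧
          ∀ b : Fin n → K, (∀ i, v (b i) ≤ δ.1) → v (eval a f) ≤ v (eval b f) := by
      rintro ⟨_, x, hx, rfl⟩
      exact hv.ball f (by rintro rfl; simp at hx)
    choose A hA hAmin using hs'
    have hAw : ∀ δ i, w (A δ i) ≤ 1 := by
      rintro ⟨_, x, hx, rfl⟩ i
      have h1 : w (A ⟨v x, x, hx, rfl⟩ i) ≤ w x := w_le_of_v_le hvw (hA _ i)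
      exact h1.trans hx.le
    let F : s → (Values w f)ᵒᵈ := fun δ =>
      OrderDual.toDual ⟨w (eval (A δ.1) f), A δ.1, hAw δ.1, rfl⟩
    refine (Cardinal.lift_le.2 <| Order.cof_le (s := Set.range F) ?_).trans
      Cardinal.mk_range_le_lift
    intro γ
    obtain ⟨⟨_, b, hb, rfl⟩, rfl⟩ := OrderDual.toDual.surjective γ
    obtain ⟨m, hm, hbm⟩ := exists_unit_bound hvw b hb
    obtain ⟨δ, hδ, hmδ⟩ := hs ⟨v m, m, hm, rfl⟩
    refine ⟨F ⟨δ, hδ⟩, Set.mem_range_self _, ?_⟩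
    change w (eval (A δ) f) ≤ w (eval b f)
    exact w_le_of_v_le hvw (hAmin δ b fun i => (hbm i).trans hmδ)
  · rw [Order.le_lift_cof_iff]
    intro T hT
    have hT' : ∀ t : (Values w f)ᵒᵈ, ∃ (a : Fin n → K) (m : K), w m = 1 ∧
        (∀ i, v (a i) ≤ v m) ∧ w (eval a f) = (OrderDual.ofDual t).1 := by
      intro t
      obtain ⟨⟨_, b, hb, rfl⟩, rfl⟩ := OrderDual.toDual.surjective t
      obtain ⟨m, hm, hbm⟩ := exists_unit_bound hvw b hb
      exact ⟨b, m, hm, hbm, rfl⟩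
    choose A M hM hAM hAt using hT'
    let F : T → {δ : Γ // ∃ x : K, w x = 1 ∧ v x = δ} := fun t => ⟨v (M t.1), M t.1, hM t.1, rfl⟩
    refine (Cardinal.lift_le.2 <| Order.cof_le (s := Set.range F) ?_).trans
      Cardinal.mk_range_le_lift
    rintro ⟨_, m, hm, rfl⟩
    obtain ⟨b, hb, hlt⟩ := bounded_on_balls hv hvw f hno m hm
    obtain ⟨t, ht, htb⟩ := hT (OrderDual.toDual ⟨w (eval b f), b, hb, rfl⟩)
    refine ⟨F ⟨t, ht⟩, Set.mem_range_self _, ?_⟩
    change v m ≤ v (M t)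
    by_contra hcon
    push Not at hcon
    have h1 := hlt (A t) fun i => (hAM t i).trans hcon.le
    rw [hAt] at h1
    have h2 : (OrderDual.ofDual t).1 ≤ w (eval b f) := htb
    exact absurd h2 (not_le.2 h1)

end Pool.Agent.Helper23.XT
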