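import Mathlib

/-!
# Extremal valued fields and their coarsenings (MP_c5a4e2_lc)

Multiplicative notation: `v x ≤ 1` is the valuation ring; the largest element of the set of
(additive) values is the least element of the set of (multiplicative) values, `0` is `∞`.
-/

namespace Pool.Agent.Helper23.XT

open MvPolynomial

/-- `(K, v)` is extremal: every polynomial in finitely many variables attains its extremal
value on the valuation ring. -/
def Extremal {K Γ : Type*} [Field K] [LinearOrderedCommGroupWithZero Γ] (v : Valuation K Γ) :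
    Prop :=
  ∀ (n : ℕ) (f : MvPolynomial (Fin n) K), ∃ a : Fin n → K, (∀ i, v (a i) ≤ 1) ∧
    ∀ b : Fin n → K, (∀ i, v (b i) ≤ 1) → v (eval a f) ≤ v (eval b f)

/-- The set of values `w (f(a))`, `a` in the valuation ring. -/
def Values {K Γ : Type*} [Field K] [LinearOrderedCommGroupWithZero Γ] (w : Valuation K Γ)
    {n : ℕ} (f : MvPolynomial (Fin n) K) : Set Γ :=
  {γ | ∃ a : Fin n → K, (∀ i, w (a i) ≤ 1) ∧ w (eval a f) = γ}

/-- One-variable extremality of a valuation ring `O` of a field `F`. -/
def Ext1 {F : Type*} [Field F] (O : ValuationSubring F) : Prop :=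
  ∀ g : Polynomial F, ∃ a ∈ O, ∀ b ∈ O, O.valuation (g.eval a) ≤ O.valuation (g.eval b)

/-- Mac Lane's condition for a field extension `L/K`. -/
def MacLane (K L : Type*) [Field K] [Field L] [Algebra K L] : Prop :=
  ∀ p : ℕ, p.Prime → CharP K p → ∀ s : Finset L, LinearIndepOn K id (s : Set L) →
    LinearIndepOn K (fun x : L => x ^ p) (s : Set L)

end Pool.Agent.Helper23.XT
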