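import Pool.Agent.Helper23.XT.Ultra
import Pool.Agent.Helper1.XT.Ultra1
import Pool.Agent.Helper3.XT.Ext1
import Pool.Agent.Helper86.XT.Hens
import Pool.Agent.Helper68.XT.Lift
import Pool.Agent.Helper39.XT.MacBU

/-!
# Approximate zeros on `O_w^n` give zeros (MP_c5a4e2_lc)
-/

namespace Pool.Agent.Helper23.XT

open Filter MvPolynomial Pool.Agent.Helper1.XT Pool.Agent.Helper3.XT Pool.Agent.Helper86.XT
  Pool.Agent.Helper68.XT Pool.Agent.Helper39.XT

variable {K Γ Γ' : Type*} [Field K] [LinearOrderedCommGroupWithZero Γ]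
  [LinearOrderedCommGroupWithZero Γ'] {v : Valuation K Γ} {w : Valuation K Γ'}

/-- If `f` takes arbitrarily small values on `O_w^n` (w not trivial, `v` extremal), then `f` has a
zero there. -/
theorem exists_zero (hv : Extremal v) (hvw : ∀ x, v x ≤ 1 → w x ≤ 1) (hnt : ∃ x, 1 < w x)
    {n : ℕ} (f : MvPolynomial (Fin n) K)
    (hU : ∀ κ : K, κ ≠ 0 → ∃ a : Fin n → K, (∀ i, w (a i) ≤ 1) ∧ v (eval a f) < v κ) :
    ∃ a : Fin n → K, (∀ i, w (a i) ≤ 1) ∧ eval a f = 0 := by
  classical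
  obtain ⟨t, ht⟩ := hnt
  have ht0 : t ≠ 0 := by
    rintro rfl
    simp at ht
  let ι := {κ : K // κ ≠ 0}
  let F : Filter ι := ⨅ κ : ι, 𝓟 {μ : ι | v μ.1 ≤ v κ.1}
  haveI : Nonempty ι := ⟨⟨1, one_ne_zero⟩⟩
  haveI hF : NeBot F := by
    refine iInf_neBot_of_directed ?_ fun κ => ?_
    · intro κ₁ κ₂
      rcases le_total (v κ₁.1) (v κ₂.1) with h | h
      · exact ⟨κ₁, le_rfl, principal_mono.2 fun μ (hμ : v μ.1 ≤ v κ₁.1) => hμ.trans h⟩
      · exact ⟨κ₂, principal_mono.2 fun μ (hμ : v μ.1 ≤ v κ₂.1) => hμ.trans h, le_rfl⟩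
    · exact principal_neBot_iff.2 ⟨κ, le_rfl⟩
  let U : Ultrafilter ι := Ultrafilter.of F
  have hUle : ∀ κ : ι, ∀ᶠ μ in (U : Filter ι), v μ.1 ≤ v κ.1 := by
    intro κ
    have h1 : F ≤ 𝓟 {μ : ι | v μ.1 ≤ v κ.1} := iInf_le _ κ
    exact (Ultrafilter.of_le F).trans h1 (mem_principal_self _)
  choose A hA1 hA2 using fun κ : ι => hU κ.1 κ.2
  have hAt : ∀ κ : ι, ∀ j, v (A κ j) ≤ v t := fun κ j =>
    (v_lt_of_w_lt hvw ((hA1 κ j).trans_lt ht)).le
  let x : Fin n → BU U v := fun j =>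
    ⟨((fun κ => A κ j : ι → K) : (U : Filter ι).Germ K),
      coe_mem_BU.2 ⟨t, ht0, Eventually.of_forall fun κ => hAt κ j⟩⟩
  haveI : HenselianLocalRing (BU U v) := henselian_of_ext1 OU_le_BU (ext1_OU hv)
  let ab : Fin n → IsLocalRing.ResidueField (BU U v) := fun j => IsLocalRing.residue (BU U v) (x j)
  have hx : ((aeval x f : BU U v) : (U : Filter ι).Germ K) =
      ((fun κ => eval (fun j => A κ j) f : ι → K) : (U : Filter ι).Germ K) :=
    aeval_BU f x (fun j κ => A κ j) (fun j => rfl)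
  have hmax : aeval x f ∈ IsLocalRing.maximalIdeal (BU U v) := by
    have hmem : ((fun κ => eval (fun j => A κ j) f : ι → K) : (U : Filter ι).Germ K) ∈ BU U v := by
      rw [← hx]
      exact (aeval x f : BU U v).2
    have h2 : (aeval x f : BU U v) = ⟨_, hmem⟩ := Subtype.ext hx
    rw [h2, mem_maximalIdeal_BU]
    intro κ hκ
    filter_upwards [hUle ⟨κ, hκ⟩] with μ hμ
    exact (hA2 μ).trans_le hμ
  have hab : aeval ab f = 0 := by
    have h3 : aeval ab f = algebraMap (BU U v) (IsLocalRing.ResidueField (BU U v)) (aeval x f) := by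
      rw [← aeval_algebraMap_apply]
      rfl
    rw [h3]
    exact (IsLocalRing.residue_eq_zero_iff _).2 hmax
  obtain ⟨x', hx', hz⟩ := lift_of_henselian (maclane_BU U hv) ab
  have hz' := hz f hab
  have hrep : ∀ j, ∃ b : ι → K, ((x' j : BU U v) : (U : Filter ι).Germ K) =
      (b : (U : Filter ι).Germ K) := by
    intro j
    generalize ((x' j : BU U v) : (U : Filter ι).Germ K) = y
    exact Germ.inductionOn y fun b => ⟨b, rfl⟩
  choose b hb using hrep
  have e1 : ∀ᶠ κ in (U : Filter ι), eval (fun j => b j κ) f = 0 := by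
    have h4 := aeval_BU f x' b hb
    rw [hz'] at h4
    have h5 : ((fun κ => eval (fun j => b j κ) f : ι → K) : (U : Filter ι).Germ K) =
        ((fun _ => 0 : ι → K) : (U : Filter ι).Germ K) := h4.symm
    exact Germ.coe_eq.1 h5
  have e2 : ∀ᶠ κ in (U : Filter ι), ∀ j, v (b j κ - A κ j) < v 1 := by
    rw [eventually_all]
    intro j
    have h6 : x' j - x j ∈ IsLocalRing.maximalIdeal (BU U v) := by
      rw [← IsLocalRing.residue_eq_zero_iff, map_sub, hx' j, sub_self]
    have hmem : ((fun κ => b j κ - A κ j : ι → K) : (U : Filter ι).Germ K) ∈ BU U v := by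
      have h7 : ((x' j - x j : BU U v) : (U : Filter ι).Germ K) =
        ((fun κ => b j κ - A κ j : ι → K) : (U : Filter ι).Germ K) := by
        rw [AddSubgroupClass.coe_sub, hb j]
        rfl
      rw [← h7]
      exact (x' j - x j).2
    have h8 : x' j - x j = ⟨_, hmem⟩ := by
      apply Subtype.ext
      rw [AddSubgroupClass.coe_sub, hb j]
      rfl
    rw [h8, mem_maximalIdeal_BU] at h6
    exact h6 1 one_ne_zero
  obtain ⟨κ, h1, h2⟩ := (e1.and e2).exists
  refine ⟨fun j => b j κ, fun j => ?_, h1⟩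
  have h9 : b j κ = (b j κ - A κ j) + A κ j := by ring
  change w (b j κ) ≤ 1
  rw [h9]
  refine (w.map_add _ _).trans (max_le ?_ (hA1 κ j))
  have := w_le_of_v_le hvw (h2 j).le
  simpa using this

end Pool.Agent.Helper23.XT
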