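import Pool.Agent.Helper23.XT.Cof
import Pool.Agent.Helper23.XT.Zero
import Pool.Agent.Helper95.XT.Form
import Pool.Agent.Helper90.XT.Cont
import Pool.Agent.Helper5.XT.Div
import Pool.Agent.Helper70.XT.AlgCl
import Pool.Agent.Helper82.XT.ACExt
import Pool.Agent.Helper21.XT.Steep

/-!
# Coarsenings of extremal valuations: assembly (MP_c5a4e2_lc)
-/

namespace Pool.Agent.Helper23.XT

open MvPolynomial

variable {K Γ Γ' : Type*} [Field K] [LinearOrderedCommGroupWithZero Γ]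
  [LinearOrderedCommGroupWithZero Γ'] {v : Valuation K Γ} {w : Valuation K Γ'}

theorem values_nonempty {n : ℕ} (f : MvPolynomial (Fin n) K) : (Values w f).Nonempty :=
  ⟨_, fun _ => 0, fun i => by simp, rfl⟩

/-- An extremal valuation attains every greatest lower bound of values. -/
theorem Extremal.glb_mem (hw : Extremal w) {n : ℕ} (f : MvPolynomial (Fin n) K) {γ : Γ'}
    (hγ : IsGLB (Values w f) γ) : γ ∈ Values w f := by
  obtain ⟨a, ha, hmin⟩ := hw n f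
  have h1 : γ ≤ w (eval a f) := hγ.1 ⟨a, ha, rfl⟩
  have h2 : w (eval a f) ≤ γ := hγ.2 (by
    rintro _ ⟨b, hb, rfl⟩
    exact hmin b hb)
  exact ⟨a, ha, le_antisymm h2 h1⟩

/-- a trivial valuation is extremal -/
theorem extremal_of_trivial (h : ∀ x, w x ≤ 1) : Extremal w := by
  have h1 : ∀ x, x ≠ 0 → w x = 1 := by
    intro x hx
    refine le_antisymm (h x) ?_
    have h2 := h x⁻¹
    rw [map_inv₀] at h2
    exact (inv_le_one₀ (zero_lt_iff.2 ((Valuation.ne_zero_iff w).2 hx))).1 h2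
  intro n f
  by_cases hz : ∃ a : Fin n → K, (∀ i, w (a i) ≤ 1) ∧ eval a f = 0
  · obtain ⟨a, ha, ha0⟩ := hz
    exact ⟨a, ha, fun b hb => by rw [ha0, map_zero]; exact zero_le⟩
  · push Not at hz
    refine ⟨fun _ => 0, fun i => by simp, fun b hb => ?_⟩
    rw [h1 _ (hz _ (fun i => by simp)), h1 _ (hz b hb)]

/-- the coarsening `w = v` -/
theorem extremal_of_not_proper (hv : Extremal v) (hvw : ∀ x, v x ≤ 1 → w x ≤ 1)
    (h : ∀ x, v x < 1 → w x ≠ 1) : Extremal w := by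
  have hwv : ∀ x, w x ≤ 1 → v x ≤ 1 := by
    intro x hx
    by_contra hvx
    push Not at hvx
    have hx0 : x ≠ 0 := by
      rintro rfl
      simp at hvx
    have h1 : v x⁻¹ < 1 := by
      rw [map_inv₀]
      exact inv_lt_one_of_one_lt₀ hvx
    refine h _ h1 (le_antisymm (hvw _ h1.le) ?_)
    rw [map_inv₀]
    exact (one_le_inv₀ (zero_lt_iff.2 ((Valuation.ne_zero_iff w).2 hx0))).2 hx
  intro n f
  obtain ⟨a, ha, hmin⟩ := hv n f
  exact ⟨a, fun i => hvw _ (ha i), fun b hb =>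
    w_le_of_v_le hvw (hmin b (fun i => hwv _ (hb i)))⟩

/-- the trichotomy -/
theorem cases_of (hv : Extremal v) (hvw : ∀ x, v x ≤ 1 → w x ≤ 1) :
    Extremal w ∨ ((∃ x, 1 < w x) ∧
      (∀ c : K, c ≠ 0 → ∀ m : ℕ, 0 < m → ∃ x, w x ^ m = w c) ∧
      ∃ P : Polynomial K, P.Monic ∧ 0 < P.natDegree ∧ (∀ i, w (P.coeff i) ≤ 1) ∧
        ∀ x, w x ≤ 1 → w (P.eval x) = 1) := by
  by_cases ht : ∀ x, w x ≤ 1
  · exact Or.inl (extremal_of_trivial ht)
  by_cases hp : ∀ x, v x < 1 → w x ≠ 1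
  · exact Or.inl (extremal_of_not_proper hv hvw hp)
  push Not at ht hp
  have hdiv : ∀ c : K, c ≠ 0 → ∀ m : ℕ, 0 < m → ∃ x, w x ^ m = w c :=
    fun c hc m hm => Pool.Agent.Helper5.XT.divisible hv hvw hp c hc m hm
  by_cases hres : ∀ P : Polynomial K, P.Monic → 0 < P.natDegree → (∀ i, w (P.coeff i) ≤ 1) →
      ∃ x, w x ≤ 1 ∧ w (P.eval x) < 1
  · have := Pool.Agent.Helper70.XT.isAlgClosed_of hv hvw ht hdiv hres
    exact Or.inl (Pool.Agent.Helper82.XT.extremal_of_isAlgClosed w)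
  · push Not at hres
    obtain ⟨P, hP, hd, hc, hroot⟩ := hres
    refine Or.inr ⟨ht, hdiv, P, hP, hd, hc, fun x hx => le_antisymm ?_ (hroot x hx)⟩
    rw [Polynomial.eval_eq_sum_range]
    refine w.map_sum_le fun i _ => ?_
    rw [map_mul, map_pow]
    exact mul_le_one' (hc i) (pow_le_one' hx i)

theorem glb_mem (hv : Extremal v) (hvw : ∀ x, v x ≤ 1 → w x ≤ 1)
    (hw : Function.Surjective w) {n : ℕ} (f : MvPolynomial (Fin n) K) {γ : Γ'}
    (hγ : IsGLB (Values w f) γ) : γ ∈ Values w f := by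
  rcases cases_of hv hvw with h | ⟨hnt, hdiv, P, hP, hd, hc, hroot⟩
  · exact h.glb_mem f hγ
  · obtain ⟨g, rfl⟩ := hw γ
    rcases eq_or_ne g 0 with rfl | hg
    · obtain ⟨a, ha, ha0⟩ := exists_zero hv hvw hnt f (fun κ hκ => by
        have h1 : ¬ w κ ≤ w 0 := by
          rw [map_zero, le_zero_iff, Valuation.zero_iff]
          exact hκ
        by_contra hno
        push Not at hno
        refine h1 (hγ.2 ?_)
        rintro _ ⟨a, ha, rfl⟩
        exact w_le_of_v_le hvw (hno a ha))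
      exact ⟨a, ha, by rw [ha0]⟩
    · exact Pool.Agent.Helper95.XT.glb_mem_of_form hv hvw hnt hP hd hc hroot f hg hγ

/-- what a counterexample looks like -/
theorem of_no_min (hv : Extremal v) (hvw : ∀ x, v x ≤ 1 → w x ≤ 1) {n : ℕ}
    (f : MvPolynomial (Fin n) K)
    (hno : ∀ a : Fin n → K, (∀ i, w (a i) ≤ 1) →
      ∃ b : Fin n → K, (∀ i, w (b i) ≤ 1) ∧ w (eval b f) < w (eval a f)) :
    (∃ g : K, g ≠ 0 ∧ ∀ a : Fin n → K, (∀ i, w (a i) ≤ 1) → w g < w (eval a f)) ∧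
    (∀ g : K, g ≠ 0 → (∀ a : Fin n → K, (∀ i, w (a i) ≤ 1) → w g ≤ w (eval a f)) →
      ∃ r : K, 1 < w r ∧ ∀ a : Fin n → K, (∀ i, w (a i) ≤ w r) → w g < w (eval a f)) ∧
    (∀ m : K, w m = 1 → ∃ b : Fin n → K, (∀ i, w (b i) ≤ 1) ∧
      ∀ a : Fin n → K, (∀ i, v (a i) ≤ v m) → w (eval b f) < w (eval a f)) := by
  rcases cases_of hv hvw with h | ⟨hnt, hdiv, P, hP, hd, hc, hroot⟩
  · obtain ⟨a, ha, hmin⟩ := h n f
    obtain ⟨b, hb, hlt⟩ := hno a ha
    exact absurd (hmin b hb) (not_le.2 hlt)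
  refine ⟨?_, fun g hg hlow => ?_, fun m hm => bounded_on_balls hv hvw f hno m hm⟩
  · by_contra hall
    push Not at hall
    obtain ⟨a, ha, ha0⟩ := exists_zero hv hvw hnt f (fun κ hκ => by
      obtain ⟨a, ha, h1⟩ := hall κ hκ
      obtain ⟨b, hb, h2⟩ := hno a ha
      exact ⟨b, hb, v_lt_of_w_lt hvw (h2.trans_le h1)⟩)
    obtain ⟨b, hb, h2⟩ := hno a ha
    rw [ha0, map_zero] at h2
    exact absurd h2 not_lt_zero
  · refine Pool.Agent.Helper90.XT.exists_radius hv hvw hdiv hnt hP hd hc hroot f hg (fun a ha => ?_)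
    obtain ⟨b, hb, h2⟩ := hno a ha
    exact (hlow b hb).trans_lt h2

end Pool.Agent.Helper23.XT
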