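import Pool.Agent.Helper23.XT.Basic

/-!
# The ultrapower of a valued field and the overring generated by the constants
-/

namespace Pool.Agent.Helper23.XT

open Filter

variable {K Γ : Type*} [Field K] [LinearOrderedCommGroupWithZero Γ]

variable {ι : Type*} (U : Ultrafilter ι) (v : Valuation K Γ)

/-- The valuation ring of the ultrapower: germs which are eventually in the valuation ring. -/
def OU : ValuationSubring ((U : Filter ι).Germ K) where
  carrier := {x | Germ.LiftPred (fun a => v a ≤ 1) x}
  mul_mem' := by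
    intro a b
    refine Germ.inductionOn₂ a b fun a b ha hb => ?_
    rw [Set.mem_ofPred_eq, Germ.liftPred_coe] at ha hb
    rw [← Germ.coe_mul, Set.mem_ofPred_eq, Germ.liftPred_coe]
    filter_upwards [ha, hb] with i h1 h2
    rw [Pi.mul_apply, map_mul]
    exact mul_le_one' h1 h2
  one_mem' := by
    rw [← Germ.coe_one, Set.mem_ofPred_eq, Germ.liftPred_coe]
    exact Eventually.of_forall fun i => by simp
  add_mem' := by
    intro a b
    refine Germ.inductionOn₂ a b fun a b ha hb => ?_
    rw [Set.mem_ofPred_eq, Germ.liftPred_coe] at ha hb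
    rw [← Germ.coe_add, Set.mem_ofPred_eq, Germ.liftPred_coe]
    filter_upwards [ha, hb] with i h1 h2
    exact (v.map_add _ _).trans (max_le h1 h2)
  zero_mem' := by
    rw [← Germ.coe_zero, Set.mem_ofPred_eq, Germ.liftPred_coe]
    exact Eventually.of_forall fun i => by simp
  neg_mem' := by
    intro a
    refine Germ.inductionOn a fun a ha => ?_
    rw [Set.mem_ofPred_eq, Germ.liftPred_coe] at ha
    rw [← Germ.coe_neg, Set.mem_ofPred_eq, Germ.liftPred_coe]
    filter_upwards [ha] with i h1
    rw [Pi.neg_apply, Valuation.map_neg]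
    exact h1
  mem_or_inv_mem' := by
    intro a
    refine Germ.inductionOn a fun a => ?_
    rw [← Germ.coe_inv]
    change (∀ᶠ i in (U : Filter ι), v (a i) ≤ 1) ∨ (∀ᶠ i in (U : Filter ι), v ((a⁻¹) i) ≤ 1)
    rw [← Ultrafilter.eventually_or]
    refine Eventually.of_forall fun i => ?_
    rw [Pi.inv_apply, map_inv₀]
    rcases le_total (v (a i)) 1 with h | h
    · exact Or.inl h
    · exact Or.inr (inv_le_one_of_one_le₀ h)

variable {U v}

theorem coe_mem_OU {a : ι → K} :
    ((a : (U : Filter ι).Germ K) ∈ OU U v) ↔ ∀ᶠ i in (U : Filter ι), v (a i) ≤ 1 := Iff.rfl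

variable (U v)

/-- The overring of `OU` generated by the constants. -/
def BU : ValuationSubring ((U : Filter ι).Germ K) where
  carrier := {x | ∃ κ : K, κ ≠ 0 ∧ Germ.LiftPred (fun a => v a ≤ v κ) x}
  mul_mem' := by
    intro a b
    refine Germ.inductionOn₂ a b fun a b ha hb => ?_
    obtain ⟨κ, hκ, ha⟩ := ha
    obtain ⟨μ, hμ, hb⟩ := hb
    rw [Germ.liftPred_coe] at ha hb
    refine ⟨κ * μ, mul_ne_zero hκ hμ, ?_⟩
    rw [← Germ.coe_mul, Germ.liftPred_coe]
    filter_upwards [ha, hb] with i h1 h2
    rw [Pi.mul_apply, map_mul, map_mul]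
    exact mul_le_mul' h1 h2
  one_mem' := by
    refine ⟨1, one_ne_zero, ?_⟩
    rw [← Germ.coe_one, Germ.liftPred_coe]
    exact Eventually.of_forall fun i => by simp
  add_mem' := by
    intro a b
    refine Germ.inductionOn₂ a b fun a b ha hb => ?_
    obtain ⟨κ, hκ, ha⟩ := ha
    obtain ⟨μ, hμ, hb⟩ := hb
    rw [Germ.liftPred_coe] at ha hb
    rcases le_total (v κ) (v μ) with h | h
    · refine ⟨μ, hμ, ?_⟩
      rw [← Germ.coe_add, Germ.liftPred_coe]
      filter_upwards [ha, hb] with i h1 h2
      exact (v.map_add _ _).trans (max_le (h1.trans h) h2)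
    · refine ⟨κ, hκ, ?_⟩
      rw [← Germ.coe_add, Germ.liftPred_coe]
      filter_upwards [ha, hb] with i h1 h2
      exact (v.map_add _ _).trans (max_le h1 (h2.trans h))
  zero_mem' := by
    refine ⟨1, one_ne_zero, ?_⟩
    rw [← Germ.coe_zero, Germ.liftPred_coe]
    exact Eventually.of_forall fun i => by simp
  neg_mem' := by
    intro a
    refine Germ.inductionOn a fun a ha => ?_
    obtain ⟨κ, hκ, ha⟩ := ha
    refine ⟨κ, hκ, ?_⟩
    rw [Germ.liftPred_coe] at ha
    rw [← Germ.coe_neg, Germ.liftPred_coe]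
    filter_upwards [ha] with i h1
    rw [Pi.neg_apply, Valuation.map_neg]
    exact h1
  mem_or_inv_mem' := by
    intro a
    rcases (OU U v).mem_or_inv_mem a with h | h
    · refine Or.inl ⟨1, one_ne_zero, ?_⟩
      rw [map_one]
      exact h
    · refine Or.inr ⟨1, one_ne_zero, ?_⟩
      rw [map_one]
      exact h

variable {U v}

theorem coe_mem_BU {a : ι → K} :
    ((a : (U : Filter ι).Germ K) ∈ BU U v) ↔
      ∃ κ : K, κ ≠ 0 ∧ ∀ᶠ i in (U : Filter ι), v (a i) ≤ v κ := Iff.rfl

theorem OU_le_BU : OU U v ≤ BU U v := by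
  intro x hx
  refine ⟨1, one_ne_zero, ?_⟩
  rw [map_one]
  exact hx

theorem const_mem_BU (κ : K) : ((fun _ => κ : ι → K) : (U : Filter ι).Germ K) ∈ BU U v := by
  rcases eq_or_ne κ 0 with rfl | h
  · exact (BU U v).zero_mem
  · exact ⟨κ, h, Eventually.of_forall fun i => le_rfl⟩

variable (U v)

/-- constants as a ring homomorphism into `BU` -/
noncomputable def constHom : K →+* BU U v where
  toFun κ := ⟨((fun _ => κ : ι → K) : (U : Filter ι).Germ K), const_mem_BU κ⟩
  map_one' := rfl
  map_mul' _ _ := rfl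
  map_zero' := rfl
  map_add' _ _ := rfl

noncomputable instance : Algebra K (BU U v) := (constHom U v).toAlgebra

variable {U v}

theorem algebraMap_BU (κ : K) :
    ((algebraMap K (BU U v) κ : BU U v) : (U : Filter ι).Germ K) =
      ((fun _ => κ : ι → K) : (U : Filter ι).Germ K) := rfl

end Pool.Agent.Helper23.XT
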